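import Pool.Agent.H494Z.QE.Defs
import Pool.Agent.H494Z.QE.DefsT
import Pool.Agent.H494Z.QE.All
import Pool.Agent.H700Z.QL.Lift

set_option autoImplicit false

namespace Pool.Agent.Results.MP_e86729_an.AUnitaryLifts

open Pool.Agent.H494Z.QEDefs

/-- The generators of a Kazhdan group represented in a tracial ultraproduct of matrix algebras
have unitary lifts whose centralizers have the relative commutant as ultraproduct. -/
theorem result : ∀ (G : Type) [Group G] [Countable G], PropertyT G →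
    ∀ S : Finset G, Subgroup.closure (S : Set G) = ⊤ → (∀ s ∈ S, s⁻¹ ∈ S) →
    ∀ U : Ultrafilter ℕ, (U : Filter ℕ) ≤ Filter.cofinite →
    ∀ d : ℕ → ℕ, (∀ k, 0 < d k) → ∀ π : G → Seq d, IsUnitaryHom U π →
    ∃ g : G → Seq d,
      (∀ s ∈ S, (∀ k, g s k ∈ Matrix.unitaryGroup (Fin (d k)) ℂ) ∧ Same U (g s) (π s)) ∧
      ∀ x : Seq d, Bdd x →
        ((∀ h, Same U (x * π h) (π h * x)) ↔
          ∃ a : Seq d, Bdd a ∧ (∀ k, ∀ s ∈ S, a k * g s k = g s k * a k) ∧ Same U x a) :=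
  Pool.Agent.H700Z.QL.lift_of (Pool.Agent.H700Z.QL.finU Pool.Agent.H494Z.QE.fin_all)

end Pool.Agent.Results.MP_e86729_an.AUnitaryLifts
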